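import Pool.Agent.H266LM.DirFO

/-! Key-invariant LocalMax graph neural networks on directed graphs express only first-order definable
node queries (MP_0edfa1_lc, Q1, read for directed graphs).

Idea of the proof. Let `G` and `H` satisfy the same formulas of sufficiently large rank. By the
back-and-forth property there is one small graph `Z`, a subgraph of both, that contains, in layers, for
each of its nodes the out-neighbours at which the maxima are attained in `G` and those at which they are
attained in `H`. With the keys of `G` the value in `Z` is that in `G`, with the keys of `H` it is that in
`H`; key-invariance on `Z` shows that `G` and `H` are both accepted or both rejected. For undirected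
graphs this fails, as an edge added for one of its ends is seen by the other. -/

open Pool.Agent.H266LM in
theorem Pool.Agent.Results.MP_0edfa1_lc.DirectedFODefinable.result (P : Type) [Finite P]
    (K : DGraph P → Prop) (hK : SubgraphClosed K) (C : FExpr P) (hC : C.KeyInvariantOn K) :
    ∃ φ : (lang P).Formula Unit, ∀ G : DGraph P, K G → ∀ (u : G.V) (val : G.V → ℝ),
      Function.Injective val → (G.Sat φ u ↔ C.AcceptsD G val u) :=
  directed hK C hC
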