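import Pool.Agent.H266LM.FO2

/-! Key-invariant LocalMax graph neural networks whose node queries are not first-order definable
(MP_0edfa1_lc, Q1, negated form), for every finite set of labels, the empty one included.

Idea of the proof. In a complete binary tree of depth `d` whose nodes have distinct keys, each node knows
whether it is the larger or the smaller child of its parent, and some branch alternates between smaller
and larger children and ends with a larger one iff `d` is even, whatever the keys are; first-order logic
cannot tell the parity of `d`. The graph `Gd d` consists of a hub, the branches of the tree, for each
branch a chain of nodes for its beginnings, the tree nodes and the levels; each chain node is next to its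
branch, its tree node and its level. LocalMax can test with the keys that a node has at most one
neighbour of a given kind, at most two children, and that neighbours have the same neighbour of a given
kind; these tests force every graph that passes them to have branches of the same length with all
choices of children, so the alternation test is key-invariant on all graphs. The labels are then coded by
small gadgets, so none is needed. -/

open Pool.Agent.H266LM in
theorem Pool.Agent.Results.MP_0edfa1_lc.NotFODefinable.result (P : Type) [Finite P] :
    ∃ C : FExpr P, C.KeyInvariant ∧
      ¬ ∃ φ : (lang P).Formula Unit, ∀ G : LGraph P, G.Simple → ∀ (u : G.V) (val : G.V → ℝ)
        (inj : Function.Injective val), (G.Sat φ u ↔ C.Accepts G val inj u) := by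
  classical
  have := Fintype.ofFinite P
  exact ⟨CP P, CP_keyInvariant, fun ⟨φ, h⟩ => not_defines' P φ h⟩
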